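import Pool.Agent.Lib.MP_20855c_co.Mg.G013
import Pool.Agent.Lib.MP_20855c_co.Mg.G009
import Pool.Agent.Lib.MP_20855c_co.Mg.G010

set_option autoImplicit false

namespace Pool.Agent.Lib.MP_20855c_co.Star

open Finset

variable {α : Type*} [DecidableEq α]

/-- ST7: a set with at least `2 q` points contains `q` pairwise disjoint pairs (induction on `q`). -/
theorem exists_matching (Y : Finset α) (q : ℕ) (h : 2 * q ≤ Y.card) :
    ∃ M : Finset (Finset α), IsMatching M ∧ (∀ e ∈ M, e ⊆ Y) ∧ M.card = q := by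
  induction q generalizing Y with
  | zero =>
    exact ⟨∅, ⟨by simp, by simp⟩, by simp, by simp⟩
  | succ q ih =>
    obtain ⟨e, heY, he⟩ := Finset.exists_subset_card_eq (show 2 ≤ Y.card by omega)
    have h1 : 2 * q ≤ (Y \ e).card := by
      rw [card_sdiff_of_subset heY]; omega
    obtain ⟨M, hM, hMY, hMq⟩ := ih (Y \ e) h1
    have hde : ∀ f ∈ M, Disjoint f e := by
      intro f hf
      rw [Finset.disjoint_left]
      intro x hx hxe
      exact (mem_sdiff.1 (hMY f hf hx)).2 hxe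
    have heM : e ∉ M := by
      intro heM
      have h2 := hde e heM
      rw [disjoint_self] at h2
      have h3 : e = ∅ := h2
      rw [h3] at he
      simp at he
    refine ⟨insert e M, ⟨?_, ?_⟩, ?_, ?_⟩
    · intro f hf
      rcases mem_insert.1 hf with rfl | hf
      · exact he
      · exact hM.1 f hf
    · intro f hf g hg hfg
      rcases mem_insert.1 hf with h1f | h1f
      · rcases mem_insert.1 hg with h1g | h1g
        · exact absurd (h1f.trans h1g.symm) hfg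
        · rw [h1f]
          exact (hde g h1g).symm
      · rcases mem_insert.1 hg with h1g | h1g
        · rw [h1g]
          exact hde f h1f
        · exact hM.2 f h1f g h1g hfg
    · intro f hf
      rcases mem_insert.1 hf with rfl | hf
      · exact heY
      · exact (hMY f hf).trans sdiff_subset
    · rw [card_insert_of_notMem heM, hMq]

/-- ST6 (main step). Let `I₁ = {i : A i ∩ B i ⊆ Y}` and `C` the rest, `D i = A i \ B i` (`k` points,
`D i ∩ B i = ∅`, `A i = D i ∪ (A i ∩ B i)`).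
For `j ∈ C` the set `B j` has a point outside `Y`, so `|Y \ B j| ≥ (k + b) - (b - 1) = k + 1` and there
is `m j ∈ Y \ B j` with `m j ∉ D j`; `F j = insert (m j) (D j) ⊆ Y \ B j`. For `i ≠ j` we have
`D i ∩ B j ≠ ∅` (otherwise `A i ∩ B j ⊆ A i ∩ B i`), so `¬ D i ⊆ F j`. `global_count` (on the
subtype `C`) gives `|C| ≤ ∑_{P ∈ Δ} phi M P`, `Δ = facets D m` (sets of size `k`, contained in some
`F j`). For `P ∈ Δ`, `0 < |full M P| + |free M P|` by `card_matching` (`|P ∩ cov M| ≤ k < |M|`), so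
`choice` gives `Δ' ⊆ Δ` and `K` with `|C| ≤ |Δ'|`.
Apply `skew_bound2` with `W = Y`, `J₁ = I₁`, `J₂ = Δ'`, sets `C₁ i = D i`, `A₁ i = A i`,
`C₂ P = P`, `A₂ P = K P`, `M := M` and `D := M ∪ {A s ∩ B s : s ∈ I₁}`.
`K P = P ∪ (K P \ P) ⊆ Y`. The condition `h11`: if `D i' ⊆ A i` and `e = A i \ D i' ∈ D`
then `A i ∩ B i' ⊆ e` (as `D i' ∩ B i' = ∅`), and `e = A s ∩ B s` for some `s`
by `hMc` (in the second case of `hMc` the set `I₁` is empty, nothing to prove), a contradiction to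
`hc`. `h12`: `P ⊆ F j` for some `j ∈ C`, so `P ∩ B j = ∅`, and if `P ⊆ A i`,
`e = A i \ P ∈ D` then `A i ∩ B j ⊆ e`, again a contradiction (`i ≠ j` because `i ∈ I₁`, `j ∈ C`).
`h22` is in `choice`. Hence `|I₁| + |Δ'| ≤ T (k + b) k`, and `|ι| = |I₁| + |C| ≤ |I₁| + |Δ'|`. -/
theorem star_main {ι : Type*} [Fintype ι] (k b : ℕ) (A B : ι → Finset α)
    (hA : ∀ i, (A i).card = k + 2) (hB : ∀ i, (B i).card = b) (hAB : ∀ i, (A i ∩ B i).card = 2)
    (hc : ∀ i j s, i ≠ j → ¬ A i ∩ B j ⊆ A s ∩ B s)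
    (Y : Finset α) (hY : Y.card = k + b) (hD : ∀ i, A i \ B i ⊆ Y)
    (M : Finset (Finset α)) (hM : IsMatching M) (hMY : ∀ e ∈ M, e ⊆ Y) (hMk : k + 1 ≤ M.card)
    (hMc : (∀ e ∈ M, ∃ s, e = A s ∩ B s) ∨ (∀ i, ¬ A i ∩ B i ⊆ Y)) :
    Fintype.card ι ≤ T (k + b) k := by
  classical
  -- elementary facts on the sets `A i \ B i`
  have hDk : ∀ i, (A i \ B i).card = k := by
    intro i
    have h1 := Finset.card_sdiff_add_card_inter (A i) (B i)
    rw [hA i, hAB i] at h1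
    omega
  have hDB : ∀ i, Disjoint (A i \ B i) (B i) := fun i => Finset.sdiff_disjoint
  have hAD : ∀ i, A i = (A i \ B i) ∪ (A i ∩ B i) := fun i =>
    (Finset.sdiff_union_inter (A i) (B i)).symm
  have hmeet : ∀ i j, i ≠ j → ¬ Disjoint (A i \ B i) (B j) := by
    intro i j hij hd
    refine hc i j i hij fun x hx => ?_
    obtain ⟨h1, h2⟩ := Finset.mem_inter.1 hx
    refine Finset.mem_inter.2 ⟨h1, ?_⟩
    by_contra h3
    exact Finset.disjoint_left.1 hd (Finset.mem_sdiff.2 ⟨h1, h3⟩) h2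
  -- the points `m j`
  have hm : ∀ j : {i // ¬ A i ∩ B i ⊆ Y}, ∃ m, m ∈ Y \ B j.1 ∧ m ∉ A j.1 \ B j.1 := by
    rintro ⟨j, hj⟩
    obtain ⟨y, hy, hyY⟩ := Finset.not_subset.1 hj
    have h1 : (Y ∩ B j).card ≤ b - 1 := by
      have h2 : Y ∩ B j ⊆ (B j).erase y := fun x hx => by
        obtain ⟨hx1, hx2⟩ := Finset.mem_inter.1 hx
        exact Finset.mem_erase.2 ⟨fun h => hyY (h ▸ hx1), hx2⟩
      have h3 := Finset.card_le_card h2
      rw [Finset.card_erase_of_mem (Finset.mem_inter.1 hy).2, hB j] at h3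
      exact h3
    have hb : 0 < b := by
      rw [← hB j]
      exact Finset.card_pos.2 ⟨y, (Finset.mem_inter.1 hy).2⟩
    have h4 := Finset.card_sdiff_add_card_inter Y (B j)
    have h5 : (A j \ B j).card < (Y \ B j).card := by
      rw [hDk j]; omega
    obtain ⟨m, hm1, hm2⟩ := Finset.exists_mem_notMem_of_card_lt_card h5
    exact ⟨m, hm1, hm2⟩
  choose m hmY hmD using hm
  set D : {i // ¬ A i ∩ B i ⊆ Y} → Finset α := fun j => A j.1 \ B j.1 with hDdef
  -- the sets `F j` are inside `Y` and avoid `B j`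
  have hFY : ∀ j, insert (m j) (D j) ⊆ Y := fun j =>
    Finset.insert_subset (Finset.mem_sdiff.1 (hmY j)).1 (hD j.1)
  have hFB : ∀ j, Disjoint (insert (m j) (D j)) (B j.1) := fun j =>
    Finset.disjoint_insert_left.2 ⟨(Finset.mem_sdiff.1 (hmY j)).2, hDB j.1⟩
  have hDF : ∀ i j, i ≠ j → ¬ D i ⊆ insert (m j) (D j) := by
    intro i j hij hs
    exact hmeet i.1 j.1 (fun h => hij (Subtype.ext h)) ((hFB j).mono_left hs)
  have hgc := global_count hM D m k (fun j => hDk j.1) (fun j => hmD j) hDF hMk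
  -- the members of `facets`
  have hfac : ∀ P ∈ facets D m, P.card = k ∧ ∃ j, P ⊆ insert (m j) (D j) := by
    intro P hP
    obtain ⟨j, -, hP⟩ := Finset.mem_biUnion.1 hP
    obtain ⟨x, hx, rfl⟩ := Finset.mem_image.1 hP
    refine ⟨?_, j, Finset.erase_subset _ _⟩
    rw [Finset.card_erase_of_mem hx, Finset.card_insert_of_notMem (hmD j), hDk j.1]
    rfl
  have hu : ∀ P ∈ facets D m, 0 < (full M P).card + (free M P).card := by
    intro P hP
    have h1 := card_matching hM P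
    have h2 : (P ∩ cov M).card ≤ k := (Finset.card_le_card Finset.inter_subset_left).trans
      (hfac P hP).1.le
    omega
  obtain ⟨Δ', hΔ, K, hK1, hK2, hK3⟩ := choice M hM (facets D m) hu
  have hcard : Fintype.card {i // ¬ A i ∩ B i ⊆ Y} ≤ Δ'.card := by
    exact_mod_cast hgc.trans hK3
  -- the skew system
  set G : Finset (Finset α) := M ∪ (univ.filter fun i => A i ∩ B i ⊆ Y).image fun i => A i ∩ B i
    with hG
  have hG1 : ∀ e ∈ G, e.card = 2 ∧ e ⊆ Y := by
    intro e he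
    rcases mem_union.1 he with he | he
    · exact ⟨hM.1 e he, hMY e he⟩
    · obtain ⟨i, hi, rfl⟩ := mem_image.1 he
      exact ⟨hAB i, (mem_filter.1 hi).2⟩
  have hG2 : ∀ e ∈ G, ∀ i, A i ∩ B i ⊆ Y → ∃ s, e = A s ∩ B s := by
    intro e he i hi
    rcases mem_union.1 he with he | he
    · rcases hMc with hMc | hMc
      · exact hMc e he
      · exact absurd hi (hMc i)
    · obtain ⟨i, _, rfl⟩ := mem_image.1 he
      exact ⟨i, rfl⟩
  have key := skew_bound2 (J₁ := {i // A i ∩ B i ⊆ Y}) (J₂ := {P // P ∈ Δ'}) Y k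
    (fun i => A i.1 \ B i.1) (fun i => A i.1) (fun P => P.1) (fun P => K P.1) G M
    subset_union_left hG1 ?_ ?_ ?_ ?_ ?_ ?_ ?_ ?_ ?_
  · rw [Fintype.card_coe, hY] at key
    have h1 := Fintype.card_subtype_compl (fun i => A i ∩ B i ⊆ Y)
    have h2 := Fintype.card_subtype_le (fun i => A i ∩ B i ⊆ Y)
    omega
  · intro i
    exact ⟨hDk i.1, Finset.sdiff_subset⟩
  · intro P
    exact ⟨(hfac P.1 (hΔ P.2)).1, (hK1 P.1 P.2).1⟩
  · intro i
    rw [hAD i.1]
    exact Finset.union_subset (hD i.1) i.2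
  · intro P
    obtain ⟨j, hj⟩ := (hfac P.1 (hΔ P.2)).2
    have h1 : K P.1 = (K P.1 \ P.1) ∪ P.1 := by
      rw [Finset.sdiff_union_of_subset (hK1 P.1 P.2).1]
    rw [h1]
    exact Finset.union_subset (hMY _ (hK1 P.1 P.2).2) (hj.trans (hFY j))
  · intro i
    rw [sdiff_sdiff_right_self, Finset.inf_eq_inter]
    exact mem_union_right _ (mem_image.2 ⟨i.1, mem_filter.2 ⟨mem_univ _, i.2⟩, rfl⟩)
  · intro P
    exact (hK1 P.1 P.2).2
  · rintro i i' hne ⟨h1, h2⟩
    obtain ⟨s, hs⟩ := hG2 _ h2 i.1 i.2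
    have hii : i.1 ≠ i'.1 := fun h => hne (Subtype.ext h)
    refine hc i.1 i'.1 s hii ?_
    rw [← hs]
    intro x hx
    obtain ⟨hx1, hx2⟩ := Finset.mem_inter.1 hx
    exact Finset.mem_sdiff.2 ⟨hx1, fun h => (Finset.mem_sdiff.1 h).2 hx2⟩
  · rintro i Q ⟨h1, h2⟩
    obtain ⟨j, hj⟩ := (hfac Q.1 (hΔ Q.2)).2
    obtain ⟨s, hs⟩ := hG2 _ h2 i.1 i.2
    have hij : i.1 ≠ j.1 := fun h => j.2 (h ▸ i.2)
    refine hc i.1 j.1 s hij ?_
    rw [← hs]
    intro x hx
    obtain ⟨hx1, hx2⟩ := Finset.mem_inter.1 hx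
    exact Finset.mem_sdiff.2 ⟨hx1, fun h => Finset.disjoint_left.1 (hFB j) (hj h) hx2⟩
  · intro P Q hne h
    exact hK2 P.1 P.2 Q.1 Q.2 (fun h' => hne (Subtype.ext h')) h

end Pool.Agent.Lib.MP_20855c_co.Star
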